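import Mathlib

/-!
# AWR squad, module GRP: chief factors over a central subgroup

`Z ≤ N` normal subgroups of `H`, `Z` central, `N/Z` a minimal normal subgroup of `H/Z`.
If `N/Z` is not abelian, `N/Z` is the direct product of simple nonabelian groups `A/Z`,
`A` in the set `MinAdm Z N`, permuted transitively by `H`; `K = ⁅A,A⁆` is perfect, `A = K Z`.
-/

namespace Pool.Agent.AWR.H39

open scoped Pointwise commutatorElement

variable {H : Type*} [Group H]

/-- `N/Z` is a chief factor of `H`, with `Z` central. -/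
structure IsChief (Z N : Subgroup H) : Prop where
  le : Z ≤ N
  ne : Z ≠ N
  central : Z ≤ Subgroup.center H
  normal : N.Normal
  min : ∀ T : Subgroup H, T.Normal → Z ≤ T → T ≤ N → T = Z ∨ T = N

/-- `T` lies between `Z` and `N` and is normalised by `N`. -/
structure Adm (Z N T : Subgroup H) : Prop where
  le : Z ≤ T
  sub : T ≤ N
  conj : ∀ n ∈ N, ∀ t ∈ T, n * t * n⁻¹ ∈ T

/-- `T/Z` is a minimal normal subgroup of `N/Z`. -/
structure MinAdm (Z N T : Subgroup H) : Prop extends Adm Z N T where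
  ne : T ≠ Z
  min : ∀ T', Adm Z N T' → T' ≤ T → T' = Z ∨ T' = T

/-! ### Generalities -/

lemma normal_of_central {Z : Subgroup H} (hZ : Z ≤ Subgroup.center H) : Z.Normal := by
  constructor
  intro z hz g
  have := Subgroup.mem_center_iff.1 (hZ hz) g
  rw [this, mul_inv_cancel_right]; exact hz

lemma mem_sup_central {Z A : Subgroup H} (hZ : Z ≤ Subgroup.center H) {x : H} :
    x ∈ A ⊔ Z ↔ ∃ a ∈ A, ∃ z ∈ Z, x = a * z := by
  have : Z.Normal := normal_of_central hZ
  rw [← SetLike.mem_coe, Subgroup.mul_normal]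
  constructor
  · rintro ⟨a, ha, z, hz, rfl⟩; exact ⟨a, ha, z, hz, rfl⟩
  · rintro ⟨a, ha, z, hz, rfl⟩; exact ⟨a, ha, z, hz, rfl⟩

lemma comm_central {Z : Subgroup H} (hZ : Z ≤ Subgroup.center H) {z : H} (hz : z ∈ Z) (g : H) :
    g * z = z * g := Subgroup.mem_center_iff.1 (hZ hz) g

lemma commutator_mul_central {Z : Subgroup H} (hZ : Z ≤ Subgroup.center H) {z w : H}
    (hz : z ∈ Z) (hw : w ∈ Z) (a b : H) : ⁅a * z, b * w⁆ = ⁅a, b⁆ := by
  have h1 := comm_central hZ hz
  have h2 := comm_central hZ hw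
  have h3 := comm_central hZ (Z.inv_mem hz)
  have h4 := comm_central hZ (Z.inv_mem hw)
  calc ⁅a * z, b * w⁆ = a * z * (b * w) * (z⁻¹ * a⁻¹) * (w⁻¹ * b⁻¹) := by
        simp only [commutatorElement_def, mul_inv_rev]
    _ = a * (z * (b * w)) * z⁻¹ * a⁻¹ * (w⁻¹ * b⁻¹) := by group
    _ = a * ((b * w) * z) * z⁻¹ * a⁻¹ * (w⁻¹ * b⁻¹) := by rw [h1 (b * w)]
    _ = a * b * (w * (a⁻¹ * w⁻¹)) * b⁻¹ := by group
    _ = a * b * (w * (w⁻¹ * a⁻¹)) * b⁻¹ := by rw [h4 a⁻¹]
    _ = ⁅a, b⁆ := by simp only [commutatorElement_def]; group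

lemma commutator_sup_central {Z : Subgroup H} (hZ : Z ≤ Subgroup.center H) (A B : Subgroup H) :
    ⁅A ⊔ Z, B ⊔ Z⁆ = ⁅A, B⁆ := by
  apply le_antisymm
  · rw [Subgroup.commutator_le]
    intro x hx y hy
    obtain ⟨a, ha, z, hz, rfl⟩ := (mem_sup_central hZ).1 hx
    obtain ⟨b, hb, w, hw, rfl⟩ := (mem_sup_central hZ).1 hy
    rw [commutator_mul_central hZ hz hw]
    exact Subgroup.commutator_mem_commutator ha hb
  · exact Subgroup.commutator_mono le_sup_left le_sup_left

/-- If `b` centralises `A` modulo the central subgroup `Z` then `b` centralises `⁅A,A⁆`. -/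
lemma comm_of_comm_mod {Z : Subgroup H} (hZ : Z ≤ Subgroup.center H) {A : Subgroup H} {b : H}
    (h : ∀ a ∈ A, ⁅b, a⁆ ∈ Z) {k : H} (hk : k ∈ ⁅A, A⁆) : b * k = k * b := by
  have h1 : ⁅A, A⁆ ≤ Subgroup.centralizer {b} := by
    rw [Subgroup.commutator_le]
    intro x hx y hy
    rw [Subgroup.mem_centralizer_singleton_iff]
    have e1 : b * x * b⁻¹ = x * ⁅b, x⁆ := by
      rw [comm_central hZ (h x hx) x, commutatorElement_def]; group
    have e2 : b * y * b⁻¹ = y * ⁅b, y⁆ := by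
      rw [comm_central hZ (h y hy) y, commutatorElement_def]; group
    have e3 : b * ⁅x, y⁆ * b⁻¹ = ⁅x, y⁆ := by
      calc b * ⁅x, y⁆ * b⁻¹ = ⁅b * x * b⁻¹, b * y * b⁻¹⁆ := by
            simp only [commutatorElement_def]; group
        _ = ⁅x, y⁆ := by rw [e1, e2, commutator_mul_central hZ (h x hx) (h y hy)]
    calc ⁅x, y⁆ * b = b * ⁅x, y⁆ * b⁻¹ * b := by rw [e3]
      _ = b * ⁅x, y⁆ := by group
  have := h1 hk
  rw [Subgroup.mem_centralizer_singleton_iff] at this
  exact this.symm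

/-- The elements commuting with `B` modulo `Z`. -/
def relC (Z B : Subgroup H) [Z.Normal] : Subgroup H :=
  (Subgroup.centralizer ((B.map (QuotientGroup.mk' Z) : Subgroup (H ⧸ Z)) : Set (H ⧸ Z))).comap
    (QuotientGroup.mk' Z)

lemma mem_relC {Z B : Subgroup H} [Z.Normal] {x : H} : x ∈ relC Z B ↔ ∀ b ∈ B, ⁅x, b⁆ ∈ Z := by
  unfold relC
  rw [Subgroup.mem_comap, Subgroup.mem_centralizer_iff_commutator_eq_one]
  constructor
  · intro h b hb
    have := h (QuotientGroup.mk' Z b) ⟨b, hb, rfl⟩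
    have h2 : (QuotientGroup.mk' Z) ⁅b, x⁆ = 1 := by
      rw [map_commutatorElement]; simpa [commutatorElement_def] using this
    rw [← MonoidHom.mem_ker, QuotientGroup.ker_mk'] at h2
    have h3 := Z.inv_mem h2
    rwa [commutatorElement_inv] at h3
  · rintro h _ ⟨b, hb, rfl⟩
    have h1 := Z.inv_mem (h b hb)
    rw [commutatorElement_inv, ← QuotientGroup.ker_mk' Z, MonoidHom.mem_ker,
      map_commutatorElement] at h1
    simpa [commutatorElement_def] using h1

lemma relC_symm {Z A B : Subgroup H} [Z.Normal] (h : A ≤ relC Z B) : B ≤ relC Z A := by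
  intro b hb
  rw [mem_relC]
  intro a ha
  have := Z.inv_mem (mem_relC.1 (h ha) b hb)
  rwa [commutatorElement_inv] at this

lemma relC_anti {Z A B : Subgroup H} [Z.Normal] (h : A ≤ B) : relC Z B ≤ relC Z A := by
  intro x hx
  rw [mem_relC] at hx ⊢
  exact fun b hb => hx b (h hb)

lemma relC_normal {Z N : Subgroup H} [hZn : Z.Normal] (hN : N.Normal) : (relC Z N).Normal := by
  constructor
  intro x hx g
  rw [mem_relC] at hx ⊢
  intro b hb
  have h1 := hx (g⁻¹ * b * g) (by simpa using hN.conj_mem b hb g⁻¹)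
  have h2 := hZn.conj_mem _ h1 g
  have e : g * ⁅x, g⁻¹ * b * g⁆ * g⁻¹ = ⁅g * x * g⁻¹, b⁆ := by
    simp only [commutatorElement_def]; group
  rwa [e] at h2

/-- The conjugate `g T g⁻¹`. -/
def cj (g : H) (T : Subgroup H) : Subgroup H := T.map (MulAut.conj g).toMonoidHom

lemma mem_cj {g : H} {T : Subgroup H} {x : H} : x ∈ cj g T ↔ g⁻¹ * x * g ∈ T := by
  unfold cj
  rw [Subgroup.mem_map]
  constructor
  · rintro ⟨t, ht, rfl⟩
    simpa [mul_assoc] using ht
  · intro h
    exact ⟨_, h, by simp [mul_assoc]⟩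

lemma conj_mem_cj {g : H} {T : Subgroup H} {t : H} (ht : t ∈ T) : g * t * g⁻¹ ∈ cj g T := by
  rw [mem_cj]; simpa [mul_assoc] using ht

lemma cj_mul (g k : H) (T : Subgroup H) : cj g (cj k T) = cj (g * k) T := by
  ext x; simp only [mem_cj]; simp [mul_assoc]

lemma cj_one (T : Subgroup H) : cj 1 T = T := by
  ext x; simp [mem_cj]

lemma cj_le {g : H} {T N : Subgroup H} (hN : N.Normal) (h : T ≤ N) : cj g T ≤ N := by
  intro x hx
  rw [mem_cj] at hx
  have := hN.conj_mem _ (h hx) g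
  simpa [mul_assoc] using this

lemma cj_normal {g : H} {N : Subgroup H} (hN : N.Normal) : cj g N = N := by
  apply le_antisymm (cj_le hN le_rfl)
  intro x hx
  rw [mem_cj]
  simpa using hN.conj_mem x hx g⁻¹

lemma cj_mono {g : H} {S T : Subgroup H} (h : S ≤ T) : cj g S ≤ cj g T := Subgroup.map_mono h

lemma cj_commutator (g : H) (S T : Subgroup H) : cj g ⁅S, T⁆ = ⁅cj g S, cj g T⁆ :=
  Subgroup.map_commutator S T _

/-- If a subgroup contains all the conjugates of `A` it contains the normal closure. -/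
lemma normalClosure_le_of_cj {A T : Subgroup H} (h : ∀ g, cj g A ≤ T) :
    Subgroup.normalClosure (A : Set H) ≤ T := by
  rw [Subgroup.normalClosure, Subgroup.closure_le]
  intro x hx
  rw [Group.mem_conjugatesOfSet_iff] at hx
  obtain ⟨a, ha, hax⟩ := hx
  obtain ⟨g, rfl⟩ := isConj_iff.1 hax
  exact h g (conj_mem_cj ha)

/-! ### Part (a): the abelian case -/

/-- A finite normal subgroup `N` of `H` with `⁅N,N⁆` central and without nontrivial
`H`-normal `l`-subgroups has order prime to `l`. -/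
theorem grp_abelian [Finite H] {N : Subgroup H} (hN : N.Normal)
    (hc : ⁅N, N⁆ ≤ Subgroup.center H) {l : ℕ} [Fact l.Prime]
    (hO : ∀ P : Subgroup H, P.Normal → P ≤ N → IsPGroup l P → P = ⊥) :
    ¬ l ∣ Nat.card N := by
  classical
  have := hN
  have hnil : Group.IsNilpotent N := by
    apply Subgroup.isNilpotent_of_lowerCentralSeries_eq_bot (n := 2)
    rw [Subgroup.lowerCentralSeries_succ, Subgroup.lowerCentralSeries_succ,
      Subgroup.lowerCentralSeries_zero, eq_bot_iff, Subgroup.commutator_le]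
    intro x hx y _
    rw [Subgroup.mem_bot, commutatorElement_eq_one_iff_mul_comm]
    exact (Subgroup.mem_center_iff.1 (hc hx) y).symm
  intro hl
  have P : Sylow l N := default
  have hP : (P : Subgroup N).Normal := inferInstance
  have hPc : (P : Subgroup N).Characteristic := Sylow.characteristic_of_normal P hP
  have h1 : ((P : Subgroup N).map N.subtype).Normal := inferInstance
  have h2 := hO _ h1 (Subgroup.map_subtype_le _) (P.isPGroup'.map _)
  have h3 : (P : Subgroup N) = ⊥ := (Subgroup.map_eq_bot_iff_of_injective _ N.subtype_injective).1 h2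
  have h4 := Sylow.ne_bot_of_dvd_card P hl
  exact h4 h3

/-! ### Part (b) -/

namespace IsChief

variable {Z N : Subgroup H}

lemma zn (h : IsChief Z N) : Z.Normal := normal_of_central h.central

lemma sup_comm (h : IsChief Z N) (hna : ¬ ⁅N, N⁆ ≤ Z) : ⁅N, N⁆ ⊔ Z = N := by
  have := h.normal
  have := h.zn
  rcases h.min (⁅N, N⁆ ⊔ Z) inferInstance le_sup_right
    (sup_le (Subgroup.commutator_le_left N N) h.le) with h1 | h1
  · exact absurd (le_sup_left.trans h1.le) hna
  · exact h1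

lemma perfect (h : IsChief Z N) (hna : ¬ ⁅N, N⁆ ≤ Z) : ⁅⁅N, N⁆, ⁅N, N⁆⁆ = ⁅N, N⁆ := by
  rw [← commutator_sup_central h.central ⁅N, N⁆ ⁅N, N⁆, h.sup_comm hna]

lemma le_relC (h : IsChief Z N) (B : Subgroup H) [Z.Normal] : Z ≤ relC Z B := by
  intro z hz
  rw [mem_relC]
  intro b _
  have : ⁅z, b⁆ = 1 := by
    rw [commutatorElement_eq_one_iff_mul_comm]; exact (comm_central h.central hz b).symm
  rw [this]; exact Z.one_mem

lemma relC_inf (h : IsChief Z N) (hna : ¬ ⁅N, N⁆ ≤ Z) [Z.Normal] : relC Z N ⊓ N = Z := by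
  have := h.normal
  have h0 := relC_normal (Z := Z) h.normal
  rcases h.min (relC Z N ⊓ N) inferInstance (le_inf (h.le_relC N) h.le) inf_le_right with h1 | h1
  · exact h1
  · exfalso
    apply hna
    rw [Subgroup.commutator_le]
    intro x hx y hy
    have : x ∈ relC Z N ⊓ N := by rw [h1]; exact hx
    exact mem_relC.1 this.1 y hy

lemma centralizer_le_relC [Z.Normal] : Subgroup.centralizer (N : Set H) ≤ relC Z N := by
  intro x hx
  rw [mem_relC]
  intro b hb
  rw [Subgroup.mem_centralizer_iff] at hx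
  have : ⁅x, b⁆ = 1 := by
    rw [commutatorElement_eq_one_iff_mul_comm]; exact (hx b hb).symm
  rw [this]; exact Z.one_mem

lemma centralizer_inf (h : IsChief Z N) (hna : ¬ ⁅N, N⁆ ≤ Z) :
    Subgroup.centralizer (N : Set H) ⊓ N = Z := by
  have := h.zn
  apply le_antisymm
  · exact (inf_le_inf_right N centralizer_le_relC).trans (h.relC_inf hna).le
  · refine le_inf ?_ h.le
    intro z hz
    rw [Subgroup.mem_centralizer_iff]
    intro g _
    exact comm_central h.central hz g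

/-- `C_H(⁅N,N⁆) = C_H(N)`. -/
lemma centralizer_commutator (h : IsChief Z N) (hna : ¬ ⁅N, N⁆ ≤ Z) :
    Subgroup.centralizer ((⁅N, N⁆ : Subgroup H) : Set H) = Subgroup.centralizer (N : Set H) := by
  apply le_antisymm
  · intro x hx
    rw [Subgroup.mem_centralizer_iff] at hx ⊢
    intro n hn
    have hn' : n ∈ ⁅N, N⁆ ⊔ Z := by rw [h.sup_comm hna]; exact hn
    obtain ⟨a, ha, z, hz, rfl⟩ := (mem_sup_central h.central).1 hn'
    rw [mul_assoc, ← comm_central h.central hz x, ← mul_assoc, ← mul_assoc, hx a ha]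
  · apply Subgroup.centralizer_le
    have := h.normal
    exact Subgroup.commutator_le_left N N

/-- `C_{H/C}(NC/C) = 1`, `C = C_H(N)`: if `⁅g,n⁆` centralises `N` for all `n ∈ N` then `g`
centralises `N`. -/
lemma mem_centralizer (h : IsChief Z N) (hna : ¬ ⁅N, N⁆ ≤ Z) {g : H}
    (hg : ∀ n ∈ N, ⁅g, n⁆ ∈ Subgroup.centralizer (N : Set H)) :
    g ∈ Subgroup.centralizer (N : Set H) := by
  have h1 : ∀ n ∈ N, ⁅g, n⁆ ∈ Z := by
    intro n hn
    rw [← h.centralizer_inf hna]
    refine ⟨hg n hn, ?_⟩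
    rw [commutatorElement_def]
    exact N.mul_mem (h.normal.conj_mem n hn g) (N.inv_mem hn)
  rw [← h.centralizer_commutator hna, Subgroup.mem_centralizer_iff]
  intro k hk
  exact (comm_of_comm_mod h.central h1 hk).symm

end IsChief

/-! ### Part (c): the minimal normal subgroups of `N/Z` -/

lemma Adm.commutator_le {Z N A B : Subgroup H} (hA : Adm Z N A) (hB : Adm Z N B) :
    ⁅A, B⁆ ≤ A ⊓ B := by
  rw [Subgroup.commutator_le]
  intro a ha b hb
  constructor
  · have h1 := hA.conj b (hB.sub hb) _ (A.inv_mem ha)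
    have e : ⁅a, b⁆ = a * (b * a⁻¹ * b⁻¹) := by rw [commutatorElement_def]; group
    rw [e]; exact A.mul_mem ha h1
  · have h1 := hB.conj a (hA.sub ha) _ hb
    rw [commutatorElement_def]
    exact B.mul_mem h1 (B.inv_mem hb)

lemma Adm.inf {Z N A B : Subgroup H} (hA : Adm Z N A) (hB : Adm Z N B) : Adm Z N (A ⊓ B) :=
  ⟨le_inf hA.le hB.le, inf_le_left.trans hA.sub,
    fun n hn t ht => ⟨hA.conj n hn t ht.1, hB.conj n hn t ht.2⟩⟩

lemma Adm.cj {Z N A : Subgroup H} (h : IsChief Z N) (hA : Adm Z N A) (g : H) :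
    Adm Z N (cj g A) := by
  refine ⟨?_, cj_le h.normal hA.sub, ?_⟩
  · have := cj_mono (g := g) hA.le
    rwa [cj_normal h.zn] at this
  · intro n hn t ht
    rw [mem_cj] at ht ⊢
    have h1 := hA.conj (g⁻¹ * n * g) (by simpa using h.normal.conj_mem n hn g⁻¹) _ ht
    have e : g⁻¹ * n * g * (g⁻¹ * t * g) * (g⁻¹ * n * g)⁻¹ = g⁻¹ * (n * t * n⁻¹) * g := by group
    rwa [e] at h1

lemma MinAdm.cj {Z N A : Subgroup H} (h : IsChief Z N) (hA : MinAdm Z N A) (g : H) :
    MinAdm Z N (cj g A) := by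
  refine ⟨hA.toAdm.cj h g, ?_, ?_⟩
  · intro h1
    apply hA.ne
    have : H39.cj g⁻¹ (H39.cj g A) = H39.cj g⁻¹ Z := by rw [h1]
    rwa [cj_mul, inv_mul_cancel, cj_one, cj_normal h.zn] at this
  · intro T' hT' hle
    have h1 : H39.cj g⁻¹ T' ≤ A := by
      have := cj_mono (g := g⁻¹) hle
      rwa [cj_mul, inv_mul_cancel, cj_one] at this
    rcases hA.min _ (hT'.cj h g⁻¹) h1 with h2 | h2
    · left
      have : H39.cj g (H39.cj g⁻¹ T') = H39.cj g Z := by rw [h2]
      rwa [cj_mul, mul_inv_cancel, cj_one, cj_normal h.zn] at this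
    · right
      have : H39.cj g (H39.cj g⁻¹ T') = H39.cj g A := by rw [h2]
      rwa [cj_mul, mul_inv_cancel, cj_one] at this

lemma MinAdm.inf_eq {Z N A B : Subgroup H} (hA : MinAdm Z N A) (hB : MinAdm Z N B) (hne : A ≠ B) :
    A ⊓ B = Z := by
  rcases hA.min _ (hA.toAdm.inf hB.toAdm) inf_le_left with h1 | h1
  · exact h1
  · exfalso
    rcases hB.min A hA.toAdm (inf_eq_left.1 h1) with h2 | h2
    · exact hA.ne h2
    · exact hne h2

lemma MinAdm.commutator_le {Z N A B : Subgroup H} (hA : MinAdm Z N A) (hB : MinAdm Z N B)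
    (hne : A ≠ B) : ⁅A, B⁆ ≤ Z :=
  (hA.toAdm.commutator_le hB.toAdm).trans (hA.inf_eq hB hne).le

lemma exists_minAdm [Finite H] {Z N : Subgroup H} (h : IsChief Z N) {T : Subgroup H}
    (hT : Adm Z N T) (hne : T ≠ Z) : ∃ A, MinAdm Z N A ∧ A ≤ T := by
  classical
  have hfin : (Set.univ : Set (Subgroup H)).Finite := Set.toFinite _
  obtain ⟨A, hA⟩ := (hfin.subset (Set.subset_univ {A | Adm Z N A ∧ A ≠ Z ∧ A ≤ T})).exists_minimal
    ⟨T, hT, hne, le_rfl⟩
  refine ⟨A, ⟨hA.prop.1, hA.prop.2.1, ?_⟩, hA.prop.2.2⟩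
  intro T' hT' hle
  by_cases h1 : T' = Z
  · exact Or.inl h1
  · right
    exact le_antisymm hle (hA.le_of_le ⟨hT', h1, hle.trans hA.prop.2.2⟩ hle)

lemma normalClosure_eq {Z N A : Subgroup H} (h : IsChief Z N) (hA : MinAdm Z N A) :
    Subgroup.normalClosure (A : Set H) = N := by
  rcases h.min _ Subgroup.normalClosure_normal
    (hA.le.trans Subgroup.le_normalClosure)
    (by have := h.normal; exact Subgroup.normalClosure_le_normal hA.sub) with h1 | h1
  · exfalso
    exact hA.ne (le_antisymm (Subgroup.le_normalClosure.trans h1.le) hA.le)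
  · exact h1

/-- `N` is contained in every subgroup containing the conjugates of `A`. -/
lemma le_of_cj {Z N A T : Subgroup H} (h : IsChief Z N) (hA : MinAdm Z N A)
    (hT : ∀ g, cj g A ≤ T) : N ≤ T := by
  rw [← normalClosure_eq h hA]; exact normalClosure_le_of_cj hT

/-- `N` is generated by the minimal admissible subgroups. -/
lemma le_of_minAdm [Finite H] {Z N T : Subgroup H} (h : IsChief Z N)
    (hT : ∀ A, MinAdm Z N A → A ≤ T) : N ≤ T := by
  have hN : Adm Z N N := ⟨h.le, le_rfl, fun n _ t ht => h.normal.conj_mem t ht n⟩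
  obtain ⟨A, hA, _⟩ := exists_minAdm h hN h.ne.symm
  exact le_of_cj h hA fun g => hT _ (hA.cj h g)

/-- `H` permutes the minimal admissible subgroups transitively. -/
theorem minAdm_transitive {Z N A B : Subgroup H} (h : IsChief Z N) (hna : ¬ ⁅N, N⁆ ≤ Z)
    (hA : MinAdm Z N A) (hB : MinAdm Z N B) : ∃ g, B = cj g A := by
  have := h.zn
  by_contra hcon
  push Not at hcon
  have h1 : N ≤ relC Z B := by
    apply le_of_cj h hA
    intro g x hx
    rw [mem_relC]
    intro b hb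
    exact (hA.cj h g).commutator_le hB (hcon g).symm (Subgroup.commutator_mem_commutator hx hb)
  have h2 : B ≤ relC Z N ⊓ N := le_inf (relC_symm h1) hB.sub
  rw [h.relC_inf hna] at h2
  exact hB.ne (le_antisymm h2 hB.le)

/-- `A/Z` is not abelian. -/
lemma MinAdm.not_abelian {Z N A : Subgroup H} (h : IsChief Z N) (hna : ¬ ⁅N, N⁆ ≤ Z)
    (hA : MinAdm Z N A) : ¬ ⁅A, A⁆ ≤ Z := by
  have := h.zn
  intro hab
  have h1 : N ≤ relC Z A := by
    apply le_of_cj h hA
    intro g x hx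
    rw [mem_relC]
    intro b hb
    by_cases hg : H39.cj g A = A
    · rw [hg] at hx
      exact hab (Subgroup.commutator_mem_commutator hx hb)
    · exact (hA.cj h g).commutator_le hA hg (Subgroup.commutator_mem_commutator hx hb)
  have h2 : A ≤ relC Z N ⊓ N := le_inf (relC_symm h1) hA.sub
  rw [h.relC_inf hna] at h2
  exact hA.ne (le_antisymm h2 hA.le)

/-- `A = ⁅A,A⁆ Z`. -/
lemma MinAdm.sup_comm {Z N A : Subgroup H} (h : IsChief Z N) (hna : ¬ ⁅N, N⁆ ≤ Z)
    (hA : MinAdm Z N A) : ⁅A, A⁆ ⊔ Z = A := by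
  have hle : ⁅A, A⁆ ≤ A := (hA.toAdm.commutator_le hA.toAdm).trans inf_le_left
  have hadm : Adm Z N (⁅A, A⁆ ⊔ Z) := by
    refine ⟨le_sup_right, (sup_le hle hA.le).trans hA.sub, ?_⟩
    intro n hn t ht
    have h1 : H39.cj n A = A := by
      apply le_antisymm
      · intro x hx
        rw [mem_cj] at hx
        have := hA.conj n hn _ hx
        simpa [mul_assoc] using this
      · intro x hx
        rw [mem_cj]
        simpa using hA.conj n⁻¹ (N.inv_mem hn) _ hx
    have h2 : H39.cj n (⁅A, A⁆ ⊔ Z) = ⁅A, A⁆ ⊔ Z := by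
      have : H39.cj n (⁅A, A⁆ ⊔ Z) = H39.cj n ⁅A, A⁆ ⊔ H39.cj n Z := Subgroup.map_sup _ _ _
      rw [this, cj_commutator, h1, cj_normal h.zn]
    rw [← h2]
    exact conj_mem_cj ht
  rcases hA.min _ hadm (sup_le hle hA.le) with h1 | h1
  · exact absurd (le_sup_left.trans h1.le) (hA.not_abelian h hna)
  · exact h1

/-- `K = ⁅A,A⁆` is perfect. -/
lemma MinAdm.perfect {Z N A : Subgroup H} (h : IsChief Z N) (hna : ¬ ⁅N, N⁆ ≤ Z)
    (hA : MinAdm Z N A) : ⁅⁅A, A⁆, ⁅A, A⁆⁆ = ⁅A, A⁆ := by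
  rw [← commutator_sup_central h.central ⁅A, A⁆ ⁅A, A⁆, hA.sup_comm h hna]

/-- `⁅K_A, B⁆ = 1` for `A ≠ B`. -/
lemma MinAdm.comm {Z N A B : Subgroup H} (h : IsChief Z N)
    (hA : MinAdm Z N A) (hB : MinAdm Z N B) (hne : A ≠ B) {k b : H} (hk : k ∈ ⁅A, A⁆)
    (hb : b ∈ B) : b * k = k * b :=
  comm_of_comm_mod h.central
    (fun a ha => hB.commutator_le hA hne.symm (Subgroup.commutator_mem_commutator hb ha)) hk

/-- `A/Z` is simple: a subgroup `T` with `Z ≤ T ≤ A` normalised by `A` is `Z` or `A`. -/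
lemma MinAdm.simple {Z N A T : Subgroup H} (h : IsChief Z N)
    (hA : MinAdm Z N A) (h1 : Z ≤ T) (h2 : T ≤ A) (h3 : ∀ a ∈ A, ∀ t ∈ T, a * t * a⁻¹ ∈ T) :
    T = Z ∨ T = A := by
  refine hA.min T ⟨h1, h2.trans hA.sub, ?_⟩ h2
  have h4 : N ≤ Subgroup.normalizer (T : Set H) := by
    apply le_of_cj h hA
    intro g
    rw [Subgroup.le_normalizer_iff]
    intro b hb t ht
    by_cases hg : H39.cj g A = A
    · rw [hg] at hb
      exact h3 b hb t ht
    · have h5 := h1 ((hA.cj h g).commutator_le hA hg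
        (Subgroup.commutator_mem_commutator hb (h2 ht)))
      have e : b * t * b⁻¹ = ⁅b, t⁆ * t := by rw [commutatorElement_def]; group
      rw [e]; exact T.mul_mem h5 ht
  intro n hn t ht
  exact (Subgroup.mem_normalizer_iff.1 (h4 hn) t).1 ht

/-- Every `T` with `Z ≤ T ≤ N` normalised by `N` is contained in every subgroup `S ≥ Z`
containing the minimal admissible subgroups of `T`. -/
lemma Adm.le_of_minAdm [Finite H] {Z N T S : Subgroup H} (h : IsChief Z N) (hna : ¬ ⁅N, N⁆ ≤ Z)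
    (hT : Adm Z N T) (hZS : Z ≤ S) (hS : ∀ A, MinAdm Z N A → A ≤ T → A ≤ S) : T ≤ S := by
  classical
  have hZn := h.zn
  set T1 : Subgroup H := ⨆ A : {A // MinAdm Z N A ∧ A ≤ T}, A.1 with hT1
  set T2 : Subgroup H := ⨆ A : {A // MinAdm Z N A ∧ ¬ A ≤ T}, A.1 with hT2
  have hle1 : T1 ≤ T := iSup_le fun A => A.2.2
  have h12 : T2 ≤ relC Z T1 := by
    apply iSup_le
    rintro ⟨B, hB, hBT⟩
    apply relC_symm
    apply iSup_le
    rintro ⟨A, hA, hAT⟩
    intro x hx
    rw [mem_relC]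
    intro b hb
    have hne : A ≠ B := by rintro rfl; exact hBT hAT
    exact hA.commutator_le hB hne (Subgroup.commutator_mem_commutator hx hb)
  have h2T : T2 ≤ relC Z T := by
    apply iSup_le
    rintro ⟨B, hB, hBT⟩
    intro x hx
    rw [mem_relC]
    intro t ht
    have h3 := hB.toAdm.commutator_le hT (Subgroup.commutator_mem_commutator hx ht)
    rcases hB.min _ (hB.toAdm.inf hT) inf_le_left with h4 | h4
    · rwa [h4] at h3
    · exact absurd (inf_eq_left.1 h4) hBT
  -- every element of `N` is a product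
  have hprod : ∀ n ∈ N, ∃ a ∈ T1 ⊔ Z, ∃ b ∈ T2, n = a * b := by
    -- `T1 ⊔ Z` is normalised by `N`
    have hnorm : N ≤ Subgroup.normalizer ((T1 ⊔ Z : Subgroup H) : Set H) := by
      apply H39.le_of_minAdm h
      intro A hA
      by_cases hAT : A ≤ T
      · have h5 : A ≤ T1 ⊔ Z := le_trans (le_iSup (fun A : {A // MinAdm Z N A ∧ A ≤ T} => A.1)
          ⟨A, hA, hAT⟩) le_sup_left
        exact h5.trans Subgroup.le_normalizer
      · have h6 : A ≤ relC Z T1 := le_trans (le_iSup (fun A : {A // MinAdm Z N A ∧ ¬ A ≤ T} => A.1)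
          ⟨A, hA, hAT⟩) h12
        have h7 : ∀ a ∈ A, ∀ t ∈ T1 ⊔ Z, a * t * a⁻¹ ∈ T1 ⊔ Z := by
          intro a ha t ht
          obtain ⟨s, hs, z, hz, rfl⟩ := (mem_sup_central h.central).1 ht
          have h8 := mem_relC.1 (h6 ha) s hs
          have e : a * (s * z) * a⁻¹ = ⁅a, s⁆ * (s * z) := by
            have h9 := comm_central h.central hz a⁻¹
            calc a * (s * z) * a⁻¹ = a * s * (z * a⁻¹) := by group
              _ = a * s * (a⁻¹ * z) := by rw [h9]
              _ = ⁅a, s⁆ * (s * z) := by rw [commutatorElement_def]; group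
          rw [e]
          exact (T1 ⊔ Z).mul_mem (Subgroup.mem_sup_right h8) ht
        exact Subgroup.le_normalizer_iff.2 h7
    have hgen : N ≤ (T1 ⊔ Z) ⊔ T2 := by
      apply H39.le_of_minAdm h
      intro A hA
      by_cases hAT : A ≤ T
      · exact (le_iSup (fun A : {A // MinAdm Z N A ∧ A ≤ T} => A.1) ⟨A, hA, hAT⟩).trans
          (le_sup_left.trans le_sup_left)
      · exact (le_iSup (fun A : {A // MinAdm Z N A ∧ ¬ A ≤ T} => A.1) ⟨A, hA, hAT⟩).trans
          le_sup_right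
    have h2N : T2 ≤ N := iSup_le fun A => A.2.1.sub
    intro n hn
    have h10 : n ∈ (((T1 ⊔ Z) ⊔ T2 : Subgroup H) : Set H) := hgen hn
    rw [Subgroup.coe_mul_of_right_le_normalizer_left _ _ (h2N.trans hnorm)] at h10
    obtain ⟨a, ha, b, hb, rfl⟩ := h10
    exact ⟨a, ha, b, hb, rfl⟩
  intro t ht
  obtain ⟨a, ha, b, hb, rfl⟩ := hprod t (hT.sub ht)
  have haT : a ∈ T := (sup_le hle1 hT.le) ha
  have hbT : b ∈ T := by
    have := T.mul_mem (T.inv_mem haT) ht
    simpa using this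
  -- `b` commutes with everything modulo `Z`
  have hbZ : b ∈ relC Z N ⊓ N := by
    refine ⟨?_, hT.sub hbT⟩
    have h11 : N ≤ relC Z (Subgroup.zpowers b) := by
      apply H39.le_of_minAdm h
      intro A hA
      by_cases hAT : A ≤ T
      · have h13 : Subgroup.zpowers b ≤ relC Z T := by
          rw [Subgroup.zpowers_le]; exact h2T hb
        exact hAT.trans (relC_symm h13)
      · have h14 : A ≤ relC Z T := (le_iSup (fun A : {A // MinAdm Z N A ∧ ¬ A ≤ T} => A.1)
          ⟨A, hA, hAT⟩).trans h2T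
        exact h14.trans (relC_anti (by rw [Subgroup.zpowers_le]; exact hbT))
    exact (relC_symm h11) (Subgroup.mem_zpowers b)
  rw [h.relC_inf hna] at hbZ
  have hS1 : T1 ⊔ Z ≤ S := sup_le (iSup_le fun A => hS _ A.2.1 A.2.2) hZS
  exact S.mul_mem (hS1 ha) (hZS hbZ)

/-- An element of `A` commuting with `A` modulo `Z` lies in `Z`. -/
lemma MinAdm.mem_of_relC [Finite H] {Z N A : Subgroup H} [Z.Normal] (h : IsChief Z N)
    (hna : ¬ ⁅N, N⁆ ≤ Z) (hA : MinAdm Z N A) {x : H} (hx : x ∈ A) (hxA : x ∈ relC Z A) :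
    x ∈ Z := by
  have hbZ : x ∈ relC Z N ⊓ N := by
    refine ⟨?_, hA.sub hx⟩
    have h11 : N ≤ relC Z (Subgroup.zpowers x) := by
      apply H39.le_of_minAdm h
      intro B hB
      by_cases hAB : B = A
      · rw [hAB]
        apply relC_symm
        rw [Subgroup.zpowers_le]; exact hxA
      · intro b hb
        rw [mem_relC]
        intro y hy
        have hy' : y ∈ A := (Subgroup.zpowers_le.2 hx) hy
        exact hB.commutator_le hA hAB (Subgroup.commutator_mem_commutator hb hy')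
    exact (relC_symm h11) (Subgroup.mem_zpowers x)
  rwa [h.relC_inf hna] at hbZ

/-- The centre of `A` is `Z`. -/
lemma MinAdm.centralizer_inf [Finite H] {Z N A : Subgroup H} (h : IsChief Z N)
    (hna : ¬ ⁅N, N⁆ ≤ Z) (hA : MinAdm Z N A) : Subgroup.centralizer (A : Set H) ⊓ A = Z := by
  have := h.zn
  apply le_antisymm
  · rintro x ⟨hx, hxA⟩
    exact hA.mem_of_relC h hna hxA (IsChief.centralizer_le_relC hx)
  · refine le_inf ?_ hA.le
    intro z hz
    rw [Subgroup.mem_centralizer_iff]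
    intro g _
    exact comm_central h.central hz g

/-- The centre of `K = ⁅A,A⁆` is `K ∩ Z`. -/
lemma MinAdm.center_comm [Finite H] {Z N A : Subgroup H} (h : IsChief Z N)
    (hna : ¬ ⁅N, N⁆ ≤ Z) (hA : MinAdm Z N A) :
    Subgroup.centralizer ((⁅A, A⁆ : Subgroup H) : Set H) ⊓ ⁅A, A⁆ = ⁅A, A⁆ ⊓ Z := by
  have hle : ⁅A, A⁆ ≤ A := (hA.toAdm.commutator_le hA.toAdm).trans inf_le_left
  apply le_antisymm
  · rintro x ⟨hx, hxA⟩
    refine ⟨hxA, ?_⟩
    have hx' : x ∈ Subgroup.centralizer (A : Set H) ⊓ A := by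
      refine Subgroup.mem_inf.2 ⟨?_, hle hxA⟩
      replace hx := Subgroup.mem_centralizer_iff.1 hx
      rw [Subgroup.mem_centralizer_iff]
      intro a ha
      have ha' : a ∈ ⁅A, A⁆ ⊔ Z := by rw [hA.sup_comm h hna]; exact ha
      obtain ⟨k, hk, z, hz, rfl⟩ := (mem_sup_central h.central).1 ha'
      rw [mul_assoc, ← comm_central h.central hz x, ← mul_assoc, ← mul_assoc, hx k hk]
    rwa [hA.centralizer_inf h hna] at hx'
  · rintro x ⟨hx, hxZ⟩
    refine Subgroup.mem_inf.2 ⟨?_, hx⟩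
    rw [Subgroup.mem_centralizer_iff]
    intro g _
    exact comm_central h.central hxZ g

/-- `A` meets the product of the others in `Z`. -/
lemma MinAdm.inf_iSup [Finite H] {Z N A : Subgroup H} (h : IsChief Z N)
    (hna : ¬ ⁅N, N⁆ ≤ Z) (hA : MinAdm Z N A) :
    A ⊓ ((⨆ B : {B // MinAdm Z N B ∧ B ≠ A}, B.1) ⊔ Z) = Z := by
  have := h.zn
  apply le_antisymm
  · rintro x ⟨hx, hx2⟩
    apply hA.mem_of_relC h hna hx
    have h1 : (⨆ B : {B // MinAdm Z N B ∧ B ≠ A}, B.1) ⊔ Z ≤ relC Z A := by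
      refine sup_le (iSup_le ?_) (h.le_relC A)
      rintro ⟨B, hB, hBA⟩ b hb
      rw [mem_relC]
      intro a ha
      exact hB.commutator_le hA hBA (Subgroup.commutator_mem_commutator hb ha)
    exact h1 hx2
  · exact le_inf hA.le le_sup_right

/-- `⁅N,N⁆` is the product of the perfect groups `⁅A,A⁆`. -/
lemma commutator_eq_iSup [Finite H] {Z N : Subgroup H} (h : IsChief Z N) (hna : ¬ ⁅N, N⁆ ≤ Z) :
    ⁅N, N⁆ = ⨆ A : {A // MinAdm Z N A}, ⁅A.1, A.1⁆ := by
  apply le_antisymm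
  · set L : Subgroup H := ⨆ A : {A // MinAdm Z N A}, ⁅A.1, A.1⁆ with hL
    have h1 : N ≤ L ⊔ Z := by
      apply H39.le_of_minAdm h
      intro A hA
      rw [← hA.sup_comm h hna]
      exact sup_le_sup_right (le_iSup (fun A : {A // MinAdm Z N A} => ⁅A.1, A.1⁆) ⟨A, hA⟩) Z
    calc ⁅N, N⁆ ≤ ⁅L ⊔ Z, L ⊔ Z⁆ := Subgroup.commutator_mono h1 h1
      _ = ⁅L, L⁆ := commutator_sup_central h.central L L
      _ ≤ L := Subgroup.commutator_le_self L
  · exact iSup_le fun A => Subgroup.commutator_mono A.2.sub A.2.sub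

/-- `N` itself is admissible. -/
lemma IsChief.adm {Z N : Subgroup H} (h : IsChief Z N) : Adm Z N N :=
  ⟨h.le, le_rfl, fun n _ t ht => h.normal.conj_mem t ht n⟩

/-- If `A ≠ N` is minimal, then `|A/Z| < |N/Z|`. -/
lemma MinAdm.relIndex_lt [Finite H] {Z N A : Subgroup H} (hA : MinAdm Z N A) (hne : A ≠ N) :
    Z.relIndex A < Z.relIndex N := by
  rw [← Subgroup.relIndex_mul_relIndex Z A N hA.le hA.sub]
  have h1 : 0 < Z.relIndex A := Nat.pos_of_ne_zero Subgroup.index_ne_zero_of_finite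
  have h2 : 1 < A.relIndex N := by
    have h3 : A.relIndex N ≠ 0 := Subgroup.index_ne_zero_of_finite
    have h4 : A.relIndex N ≠ 1 := by
      intro h5
      rw [Subgroup.relIndex_eq_one] at h5
      exact hne (le_antisymm hA.sub h5)
    omega
  nlinarith

/-- The map `A ↦ ⁅A,A⁆` is injective. -/
lemma MinAdm.comm_injective {Z N A B : Subgroup H} (h : IsChief Z N) (hna : ¬ ⁅N, N⁆ ≤ Z)
    (hA : MinAdm Z N A) (hB : MinAdm Z N B) (he : ⁅A, A⁆ = ⁅B, B⁆) : A = B := by
  rw [← hA.sup_comm h hna, he, hB.sup_comm h hna]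

end Pool.Agent.AWR.H39
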