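import Pool.Agent.Helper96_PP.StmtsA
import Pool.Agent.Helper39_AWR.Grp

/-!
# AWR squad: `Gr1Stmt`, `Gr2Stmt`, `MusStmt`
-/

namespace Pool.Agent.AWR.H39

open Pool.Agent.PP Pool.Agent.Helper51_AWC
open scoped commutatorElement

theorem gr1 : Gr1Stmt := by
  intro ℓ _ G _ _ N hN hO hc
  classical
  have := hN
  have hcomm : ⁅N, N⁆ ≤ Subgroup.center G := by
    rw [Subgroup.commutator_le]
    intro x hx y hy
    rw [commutatorElement_def]; exact hc x hx y hy
  have hnil : Group.IsNilpotent N := by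
    apply Subgroup.isNilpotent_of_lowerCentralSeries_eq_bot (n := 2)
    rw [Subgroup.lowerCentralSeries_succ, Subgroup.lowerCentralSeries_succ,
      Subgroup.lowerCentralSeries_zero, eq_bot_iff, Subgroup.commutator_le]
    intro x hx y _
    rw [Subgroup.mem_bot, commutatorElement_eq_one_iff_mul_comm]
    exact (Subgroup.mem_center_iff.1 (hcomm hx) y).symm
  intro hl
  have P : Sylow ℓ N := default
  have hP : (P : Subgroup N).Normal := inferInstance
  have h3 : (P : Subgroup N) ≤ opCore ℓ N := le_sSup ⟨hP, P.isPGroup'⟩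
  rw [hO, le_bot_iff] at h3
  exact Sylow.ne_bot_of_dvd_card P hl h3

theorem gr2 : Gr2Stmt := by
  intro G _ _ N hN hNZ
  classical
  obtain ⟨A, hA⟩ := (Set.toFinite {T : Subgroup G | T.Normal ∧ N ⊓ Subgroup.center G ≤ T ∧ T ≤ N ∧
    ¬ T ≤ Subgroup.center G}).exists_minimal ⟨N, hN, inf_le_left, le_rfl, hNZ⟩
  obtain ⟨h1, h2, h3, h4⟩ := hA.prop
  refine ⟨A, h3, h2, h1, h4, ?_⟩
  intro T hT hle hTA
  by_cases h5 : T ≤ Subgroup.center G
  · left
    exact le_antisymm (le_inf hTA h5) hle
  · right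
    refine le_antisymm hTA (hA.le_of_le ⟨hT, ?_, hTA.trans h3, h5⟩ hTA)
    exact (le_inf h2 inf_le_right).trans hle

lemma relIndex_pos' {G : Type} [Group G] [Finite G] (A B : Subgroup G) : A.relIndex B ≠ 0 :=
  Subgroup.index_ne_zero_of_finite

/-- The measure is monotone. -/
theorem mu_le {G : Type} [Group G] [Finite G] {T N' N : Subgroup G}
    (hT : Subgroup.center G ≤ T) (hN : N' ≤ N) : mu (N'.subgroupOf T) ≤ mu N := by
  unfold mu
  have h1 : (Subgroup.center G).subgroupOf T ≤ Subgroup.center T := by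
    intro x hx
    rw [Subgroup.mem_center_iff]
    intro g
    apply Subtype.ext
    exact Subgroup.mem_center_iff.1 (Subgroup.mem_subgroupOf.1 hx) (g : G)
  calc (Subgroup.center T).relIndex (N'.subgroupOf T)
      ≤ ((Subgroup.center G).subgroupOf T).relIndex (N'.subgroupOf T) :=
        Subgroup.relIndex_le_of_le_left h1 (relIndex_pos' _ _)
    _ = ((Subgroup.center G).subgroupOf T).relIndex ((N' ⊓ T).subgroupOf T) := by
        rw [Subgroup.inf_subgroupOf_right]
    _ = (Subgroup.center G).relIndex (N' ⊓ T) := Subgroup.relIndex_subgroupOf inf_le_right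
    _ ≤ (Subgroup.center G).relIndex N :=
        Subgroup.relIndex_le_of_le_right (inf_le_left.trans hN) (relIndex_pos' _ _)

theorem mus : MusStmt := by
  intro G _ _ N N₂ hN hN₂ hle hZ hc
  have e : mu N = N₂.relIndex N * mu N₂ := by
    unfold mu
    rw [← Subgroup.inf_relIndex_left, ← Subgroup.inf_relIndex_left N₂]
    have h1 : N₂ ⊓ Subgroup.center G = N ⊓ Subgroup.center G :=
      le_antisymm (inf_le_inf_right _ hle) (le_inf hZ inf_le_right)
    rw [h1, mul_comm]
    exact (Subgroup.relIndex_mul_relIndex _ _ _ hZ hle).symm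
  have h2 : 0 < mu N₂ := Nat.pos_of_ne_zero (relIndex_pos' _ _)
  have h3 : 0 < N₂.relIndex N := Nat.pos_of_ne_zero (relIndex_pos' _ _)
  refine ⟨?_, ?_, ?_, ?_⟩
  · intro hne
    have h4 : N₂.relIndex N ≠ 1 := by
      intro h5
      rw [Subgroup.relIndex_eq_one] at h5
      exact hne (le_antisymm hle h5)
    rw [e]
    have : 1 < N₂.relIndex N := by omega
    nlinarith
  · intro _
    have h4 : mu N₂ ≠ 1 := by
      intro h5
      unfold mu at h5
      rw [Subgroup.relIndex_eq_one] at h5
      exact hc h5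
    rw [e]
    have : 1 < mu N₂ := by omega
    nlinarith
  · intro T hT
    exact mu_le hT le_rfl
  · intro T N' hT hN'
    exact mu_le hT hN'

/-- The chief factors of the statement file are those of `Grp.lean`. -/
theorem isChief_of_chief {G : Type} [Group G] {N : Subgroup G} (h : Chief N) :
    IsChief (N ⊓ Subgroup.center G) N :=
  ⟨inf_le_left, fun h1 => h.2.1 (inf_eq_left.1 h1), inf_le_right, h.1, h.2.2⟩

end Pool.Agent.AWR.H39
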