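import Pool.Agent.Helper46_PP.Blk
import Pool.Agent.Helper94_PP.Pos2

/-!
# AWR squad: `Ps3Stmt`, `Ps4Stmt`, `Ps5Stmt`
-/

open scoped BigOperators

noncomputable section

namespace Pool.Agent.AWR.H39

open Pool.Agent.PP Pool.Agent.PP.H94

section alg

variable {F N : Type} [Field F] [Group N] [Finite N]

/-- the projective centre of the group ring -/
def PC (F : Type) [Field F] (ℓ : ℕ) (N : Type) [Group N] : Submodule F (N → F) :=
  Submodule.span F {f : N → F | ∃ x : N,
    ¬ ℓ ∣ Nat.card (Subgroup.centralizer ({x} : Set N)) ∧ f = clsum F ⊤ x}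

open Classical in
theorem ma_clsum [Fintype N] (x : N) : ma (clsum F ⊤ x) =
    ∑ y : N, if ∃ g : N, y = g * x * g⁻¹ then (MonoidAlgebra.single y (1 : F)) else 0 := by
  classical
  rw [ma_eq_sum, finsum_eq_sum_of_fintype]
  refine Finset.sum_congr rfl fun y _ => ?_
  unfold clsum
  by_cases h : ∃ g : N, y = g * x * g⁻¹
  · rw [if_pos h, if_pos]
    obtain ⟨g, hg⟩ := h
    exact ⟨g, Subgroup.mem_top g, hg⟩
  · rw [if_neg h, if_neg]
    · rw [MonoidAlgebra.single_zero]
    · rintro ⟨g, _, hg⟩
      exact h ⟨g, hg⟩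

/-- `∑_g g x g⁻¹ = |C(x)| K_x` -/
theorem sum_single_conj [Fintype N] (x : N) :
    ∑ g : N, MonoidAlgebra.single (g * x * g⁻¹) (1 : F) =
      (Nat.card (Subgroup.centralizer ({x} : Set N)) : F) • ma (clsum F ⊤ x) := by
  have h := sum_conj x (fun y : N => (MonoidAlgebra.single y (1 : F)))
  rw [h, ma_clsum, Nat.cast_smul_eq_nsmul]

/-- The projective centre is an ideal. -/
theorem pc_mul {ℓ : ℕ} (hF : CharP F ℓ) {a z : N → F} (ha : a ∈ PC F ℓ N) (hz : IsCl z) :
    mulF a z ∈ PC F ℓ N := by
  classical
  have := Fintype.ofFinite N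
  unfold PC at ha
  induction ha using Submodule.span_induction with
  | zero =>
    have : mulF (0 : N → F) z = 0 := by
      apply ma_injective; rw [ma_mul, ma_zero, zero_mul]
    rw [this]; exact Submodule.zero_mem _
  | add f g _ _ hf hg =>
    have : mulF (f + g) z = mulF f z + mulF g z := by
      apply ma_injective; rw [ma_mul, ma_add, ma_add, ma_mul, ma_mul, add_mul]
    rw [this]; exact Submodule.add_mem _ hf hg
  | smul c f _ hf =>
    have : mulF (c • f) z = c • mulF f z := by
      apply ma_injective; rw [ma_mul, ma_smul, ma_smul, ma_mul, smul_mul_assoc]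
    rw [this]; exact Submodule.smul_mem _ c hf
  | mem f hf =>
    obtain ⟨x, hx, rfl⟩ := hf
    have hc : (Nat.card (Subgroup.centralizer ({x} : Set N)) : F) ≠ 0 := by
      rwa [Ne, CharP.cast_eq_zero_iff F ℓ]
    set w : N → F := fun y => z (x⁻¹ * y) with hw
    -- `w = x z`
    have hwz : ma w = MonoidAlgebra.single x 1 * ma z := by
      rw [← ma_dl (F := F) x, ← ma_mul]
      congr 1
      funext y
      unfold mulF
      rw [finsum_eq_sum_of_fintype, Finset.sum_eq_single x]
      · simp [dl, hw]
      · intro b _ hb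
        simp [dl, hb]
      · intro h; exact absurd (Finset.mem_univ _) h
    have hzc : ∀ g : N, ma z * MonoidAlgebra.single g 1 = MonoidAlgebra.single g 1 * ma z := by
      intro g
      have := (isCl_iff z).1 hz
      rw [Subalgebra.mem_center_iff] at this
      exact (this _).symm
    have key : (Nat.card (Subgroup.centralizer ({x} : Set N)) : F) • ma (mulF (clsum F ⊤ x) z) =
        ∑ y : N, (w y * (Nat.card (Subgroup.centralizer ({y} : Set N)) : F)) •
          ma (clsum F ⊤ y) := by
      rw [ma_mul, ← smul_mul_assoc, ← sum_single_conj, Finset.sum_mul]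
      have e1 : ∀ g : N, MonoidAlgebra.single (g * x * g⁻¹) (1 : F) * ma z =
          ∑ y : N, w y • MonoidAlgebra.single (g * y * g⁻¹) (1 : F) := by
        intro g
        have e2 : MonoidAlgebra.single (g * x * g⁻¹) (1 : F) * ma z =
            MonoidAlgebra.single g 1 * ma w * MonoidAlgebra.single g⁻¹ 1 := by
          rw [hwz]
          have e3 : MonoidAlgebra.single (g * x * g⁻¹) (1 : F) =
              MonoidAlgebra.single g 1 * MonoidAlgebra.single x 1 * MonoidAlgebra.single g⁻¹ 1 := by
            rw [MonoidAlgebra.single_mul_single, MonoidAlgebra.single_mul_single, one_mul, one_mul]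
          rw [e3, mul_assoc _ _ (ma z), ← hzc]
          simp only [mul_assoc]
        rw [e2, ma_eq_sum w, finsum_eq_sum_of_fintype, Finset.mul_sum, Finset.sum_mul]
        refine Finset.sum_congr rfl fun y _ => ?_
        rw [MonoidAlgebra.single_mul_single, MonoidAlgebra.single_mul_single, one_mul, mul_one,
          MonoidAlgebra.smul_single, smul_eq_mul, mul_one]
      rw [Finset.sum_congr rfl fun g _ => e1 g, Finset.sum_comm]
      refine Finset.sum_congr rfl fun y _ => ?_
      rw [← Finset.smul_sum, sum_single_conj, smul_smul]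
    have e4 : mulF (clsum F ⊤ x) z = ∑ y : N,
        ((Nat.card (Subgroup.centralizer ({x} : Set N)) : F)⁻¹ *
          (w y * (Nat.card (Subgroup.centralizer ({y} : Set N)) : F))) • clsum F ⊤ y := by
      apply ma_injective
      rw [ma_sum]
      simp only [ma_smul, mul_smul]
      rw [← Finset.smul_sum]
      simp only [mul_smul] at key
      rw [← key, smul_smul, inv_mul_cancel₀ hc, one_smul]
    rw [e4]
    refine Submodule.sum_mem _ fun y _ => ?_
    by_cases hy : ℓ ∣ Nat.card (Subgroup.centralizer ({y} : Set N))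
    · have : (Nat.card (Subgroup.centralizer ({y} : Set N)) : F) = 0 := by
        rwa [CharP.cast_eq_zero_iff F ℓ]
      rw [this, mul_zero, mul_zero, zero_smul]
      exact Submodule.zero_mem _
    · exact Submodule.smul_mem _ _ (Submodule.subset_span ⟨y, hy, rfl⟩)

theorem clsum_cl (x : N) : IsCl (clsum F ⊤ x) := by
  intro z y
  exact clsum_isCl ⊤ x z y (Subgroup.mem_top y)

/-- The product of a block outside the projective centre with a class sum of defect zero is
nilpotent. -/
theorem nilp {ℓ : ℕ} (hF : CharP F ℓ) {b : N → F} (hb : IsBlk b) (hbI : b ∉ PC F ℓ N) {k : N → F}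
    (hk : k ∈ PC F ℓ N) (hkc : IsCl k) : ∃ n : ℕ, (mulF k)^[n] b = 0 := by
  classical
  have := Fintype.ofFinite N
  have hfd : Module.Finite F (MonoidAlgebra F N) := Module.Finite.equiv (maL (F := F) (H := N))
  have hfd2 : Module.Finite F (Subalgebra.center F (MonoidAlgebra F N)) :=
    FiniteDimensional.finiteDimensional_submodule
      (Subalgebra.center F (MonoidAlgebra F N)).toSubmodule
  have hart : IsArtinianRing (Subalgebra.center F (MonoidAlgebra F N)) :=
    IsArtinianRing.of_finite F _
  set K : Subalgebra.center F (MonoidAlgebra F N) := ⟨ma k, (isCl_iff k).1 hkc⟩ with hK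
  set B : Subalgebra.center F (MonoidAlgebra F N) := ⟨ma b, (isCl_iff b).1 hb.1.1⟩ with hB
  have hBB : B * B = B := by
    apply Subtype.ext
    exact ((isIdem_iff b).1 hb.1).2
  obtain ⟨n, y, hy⟩ := IsArtinian.exists_pow_succ_smul_dvd (K * B)
    (1 : Subalgebra.center F (MonoidAlgebra F N))
  rw [smul_eq_mul, smul_eq_mul, mul_one] at hy
  set X := K * B with hX
  -- `X ^ n * (X y) ^ m = X ^ n`
  have h1 : ∀ m : ℕ, X ^ n * (X * y) ^ m = X ^ n := by
    intro m
    induction m with
    | zero => rw [pow_zero, mul_one]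
    | succ m ih =>
      rw [pow_succ, ← mul_assoc, ih, ← mul_assoc, ← pow_succ]
      exact hy
  set f := (X * y) ^ (n + 1) with hf
  have hff : f * f = f := by
    rw [hf]
    have e : (X * y) ^ (n + 1) = X ^ n * (X * y ^ (n + 1)) := by
      rw [mul_pow, pow_succ X n]; ring
    calc (X * y) ^ (n + 1) * (X * y) ^ (n + 1) = X ^ n * (X * y ^ (n + 1)) * (X * y) ^ (n + 1) := by
          rw [← e]
      _ = X ^ n * (X * y) ^ (n + 1) * (X * y ^ (n + 1)) := by ring
      _ = X ^ n * (X * y ^ (n + 1)) := by rw [h1]
      _ = (X * y) ^ (n + 1) := e.symm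
  have hBf : B * f = f := by
    have hBX : B * X = X := by
      rw [hX, mul_comm K B, ← mul_assoc, hBB]
    rw [hf, pow_succ', mul_assoc, ← mul_assoc B X, hBX]
  obtain ⟨f0, hf0⟩ := ma_surjective (f : MonoidAlgebra F N)
  have hf0c : IsIdem f0 := by
    rw [isIdem_iff, hf0]
    refine ⟨f.2, ?_⟩
    have := congrArg Subtype.val hff
    exact this
  have hbf : mulF b f0 = f0 := by
    apply ma_injective
    rw [ma_mul, hf0]
    exact congrArg Subtype.val hBf
  have hf00 : f0 = 0 := by
    rcases hb.2.2 f0 hf0c with h2 | h2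
    · exfalso
      apply hbI
      have h3 : b = f0 := by rw [← h2, hbf]
      obtain ⟨z, hz⟩ := ma_surjective ((B * y * (X * y) ^ n : Subalgebra.center F _) :
        MonoidAlgebra F N)
      have hzc : IsCl z := by
        rw [isCl_iff, hz]; exact Subtype.property _
      have h4 : mulF k z = f0 := by
        apply ma_injective
        rw [ma_mul, hz, hf0]
        have : K * (B * y * (X * y) ^ n) = f := by
          rw [hf, pow_succ', hX]; ring
        exact congrArg Subtype.val this
      rw [h3, ← h4]
      exact pc_mul hF hk hzc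
    · rw [← hbf, h2]
  have hfz : f = 0 := by
    apply Subtype.ext
    rw [← hf0, hf00, ma_zero]; rfl
  have hXn : X ^ (n + 1) = 0 := by
    have := h1 (n + 1)
    rw [← hf, hfz, mul_zero] at this
    rw [pow_succ, ← this, zero_mul]
  refine ⟨n + 1, ?_⟩
  apply ma_injective
  rw [ma_iterate, ma_zero]
  have e5 : K ^ (n + 1) * B = 0 := by
    rw [← hXn, hX, mul_pow]
    congr 1
    have : ∀ m : ℕ, B ^ (m + 1) = B := by
      intro m
      induction m with
      | zero => rw [zero_add, pow_one]
      | succ m ih => rw [pow_succ, ih, hBB]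
    exact (this n).symm
  exact congrArg Subtype.val e5

end alg

section stmts

variable {F G : Type} [Field F] [Group G] [Finite G]

theorem mulF_comm_of_cl {e : G → F} (he : IsCl e) (a : G → F) : mulF e a = mulF a e := by
  apply ma_injective
  rw [ma_mul, ma_mul]
  have := (isCl_iff e).1 he
  rw [Subalgebra.mem_center_iff] at this
  exact (this _).symm

theorem ext0_clsum (N : Subgroup G) (x : N) : ext0 N (clsum F ⊤ x) = clsum F N (x : G) := by
  rw [← clsum_restrict]
  exact H46.ext0_restr fun y hy => clsum_outside N x y hy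

theorem ext0_iterate (N : Subgroup G) (k b : N → F) (e : G → F) (n : ℕ) :
    (mulF (ext0 N k))^[n] (mulF (ext0 N b) e) = mulF (ext0 N ((mulF k)^[n] b)) e := by
  induction n with
  | zero => rfl
  | succ n ih =>
    rw [Function.iterate_succ_apply', ih, Function.iterate_succ_apply', ← mulF_assoc,
      ← H46.ext0_mul]

theorem ext0_zero (N : Subgroup G) : ext0 N (0 : N → F) = 0 := by
  funext x
  unfold ext0
  by_cases h : x ∈ N
  · rw [dif_pos h]; rfl
  · rw [dif_neg h]; rfl

theorem zero_mulF (e : G → F) : mulF 0 e = 0 := by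
  apply ma_injective; rw [ma_mul, ma_zero, zero_mul]

theorem ps3 : Ps3Stmt := by
  classical
  intro ℓ F _ hF G _ _ N hN b hb _ e he heb
  have hchar := hF.char
  constructor
  · intro hDZ x hx hxc
    rw [← card_cent N ⟨x, hx⟩] at hxc
    obtain ⟨n, hn⟩ := nilp (F := F) hchar hb hDZ (k := clsum F ⊤ (⟨x, hx⟩ : N))
      (Submodule.subset_span ⟨_, hxc, rfl⟩) (clsum_cl _)
    refine ⟨n, ?_⟩
    have e1 : e = mulF (ext0 N b) e := by
      rw [← mulF_comm_of_cl he.1, heb]
    rw [← ext0_clsum N ⟨x, hx⟩, e1, ext0_iterate, hn, ext0_zero, zero_mulF]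
  · intro hDZ hpos
    -- `e * (ext0 f)` is nilpotent for `f` in the projective centre
    have hec := (isIdem_iff e).1 he
    have hcomm : ∀ z : MonoidAlgebra F G, Commute (ma e) z := by
      intro z
      have := hec.1
      rw [Subalgebra.mem_center_iff] at this
      exact (this z).symm
    have key : ∀ f : N → F, f ∈ PC F ℓ N → IsCl f ∧ IsNilpotent (ma e * ma (ext0 N f)) := by
      intro f hf
      unfold PC at hf
      induction hf using Submodule.span_induction with
      | zero =>
        refine ⟨fun _ _ => rfl, ?_⟩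
        rw [ext0_zero, ma_zero, mul_zero]; exact IsNilpotent.zero
      | add f g _ _ hf hg =>
        refine ⟨(cfs F N).add_mem hf.1 hg.1, ?_⟩
        rw [H46.ext0_add, ma_add, mul_add]
        apply Commute.isNilpotent_add _ hf.2 hg.2
        have h1 : Commute (ma (ext0 N f)) (ma (ext0 N g)) := by
          change _ * _ = _ * _
          rw [← ma_mul, ← ma_mul, ← H46.ext0_mul, ← H46.ext0_mul, mulF_comm_of_cl hf.1]
        exact ((hcomm _).mul_right (hcomm _)).mul_left (((hcomm _).symm).mul_right h1)
      | smul c f _ hf =>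
        refine ⟨(cfs F N).smul_mem c hf.1, ?_⟩
        have : ext0 N (c • f) = c • ext0 N f := by
          funext x
          change _ = c • (ext0 N f x)
          by_cases h : x ∈ N
          · rw [H46.ext0_of_mem _ h, H46.ext0_of_mem _ h]; rfl
          · rw [H46.ext0_of_not_mem _ h, H46.ext0_of_not_mem _ h, smul_zero]
        rw [this, ma_smul, mul_smul_comm]
        exact hf.2.smul c
      | mem f hf =>
        obtain ⟨x, hx, rfl⟩ := hf
        refine ⟨clsum_cl x, ?_⟩
        rw [card_cent N x] at hx
        obtain ⟨n, hn⟩ := hpos x x.2 hx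
        rw [ext0_clsum]
        refine ⟨n + 1, ?_⟩
        have h2 : ma (clsum F N (x : G)) ^ n * ma e = 0 := by
          rw [← ma_iterate, hn, ma_zero]
        rw [(hcomm _).mul_pow, pow_succ, pow_succ, mul_assoc (ma e ^ n), ← mul_assoc (ma e),
          (hcomm (ma (clsum F N (x : G)) ^ n)).eq, h2, zero_mul, mul_zero]
    obtain ⟨_, n, hn⟩ := key b hDZ
    have e2 : ma e * ma (ext0 N b) = ma e := by rw [← ma_mul, heb]
    rw [e2] at hn
    have h3 : ma e = 0 := by
      by_contra hne
      have h4 : ∀ m : ℕ, ma e ^ (m + 1) = ma e := by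
        intro m
        induction m with
        | zero => rw [zero_add, pow_one]
        | succ m ih => rw [pow_succ, ih]; exact hec.2
      have h5 : ma e ^ (n + 1) = 0 := by rw [pow_succ, hn, zero_mul]
      rw [h4] at h5
      exact hne h5
    apply ma_injective
    rw [h3, ma_zero]

theorem ps4 : Ps4Stmt := by
  classical
  intro ℓ F _ hF N _ _ hN b hb
  have hchar := hF.char
  have := Fintype.ofFinite N
  -- the size of the class of `x` in `F`
  set c : N → F := fun x => ∑ y : N, clsum F ⊤ x y with hc
  have hdvd : ∀ x : N, ¬ ℓ ∣ Nat.card (Subgroup.centralizer ({x} : Set N)) := by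
    intro x h
    exact hN (h.trans (Subgroup.card_subgroup_dvd_card _))
  have hc0 : ∀ x, c x ≠ 0 := by
    intro x h0
    have h1 := sum_conj x (fun _ : N => (1 : F))
    have h2 : (∑ y : N, if ∃ g : N, y = g * x * g⁻¹ then (1 : F) else 0) = c x := by
      refine Finset.sum_congr rfl fun y _ => ?_
      unfold clsum
      congr 1
      apply propext
      simp
    rw [h2, h0, smul_zero, Finset.sum_const, Finset.card_univ, nsmul_eq_mul, mul_one,
      CharP.cast_eq_zero_iff F ℓ, ← Nat.card_eq_fintype_card] at h1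
    exact hN h1
  have hsym : ∀ x y : N, clsum F ⊤ x y = clsum F ⊤ y x := by
    intro x y
    unfold clsum
    congr 1
    apply propext
    constructor
    · rintro ⟨g, _, h⟩
      exact ⟨g⁻¹, Subgroup.mem_top _, by rw [h]; group⟩
    · rintro ⟨g, _, h⟩
      exact ⟨g⁻¹, Subgroup.mem_top _, by rw [h]; group⟩
  have hcls : ∀ x y : N, clsum F ⊤ x y ≠ 0 → ∃ g, y = g * x * g⁻¹ := by
    intro x y h
    by_contra h2
    apply h
    unfold clsum
    rw [if_neg]
    rintro ⟨g, _, hg⟩
    exact h2 ⟨g, hg⟩
  have key : b = ∑ x : N, (b x * (c x)⁻¹) • clsum F ⊤ x := by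
    funext y
    rw [Finset.sum_apply]
    have e1 : ∀ x : N, ((b x * (c x)⁻¹) • clsum F ⊤ x) y = b y * (c y)⁻¹ * clsum F ⊤ y x := by
      intro x
      rw [Pi.smul_apply, smul_eq_mul, hsym x y]
      by_cases h0 : clsum F ⊤ y x = 0
      · rw [h0, mul_zero, mul_zero]
      · obtain ⟨g, rfl⟩ := hcls y x h0
        have e2 : b (g * y * g⁻¹) = b y := hb y g
        have e3 : c (g * y * g⁻¹) = c y := by
          simp only [hc]
          refine Finset.sum_congr rfl fun z _ => ?_
          rw [hsym, hsym y z]
          exact clsum_cl z y g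
        rw [e2, e3]
    rw [Finset.sum_congr rfl fun x _ => e1 x, ← Finset.mul_sum, mul_assoc]
    change b y = b y * ((c y)⁻¹ * c y)
    rw [inv_mul_cancel₀ (hc0 y), mul_one]
  change b ∈ PC F ℓ N
  rw [key]
  exact Submodule.sum_mem _ fun x _ => Submodule.smul_mem _ _
    (Submodule.subset_span ⟨x, hdvd x, rfl⟩)

theorem ps5 : Ps5Stmt := by
  intro ℓ F _ hF G _ _ Q hQ e f he hf hef hpos x hx hxc
  obtain ⟨n, hn⟩ := hpos x hx hxc
  refine ⟨n, ?_⟩
  apply ma_injective
  have h1 : ma (clsum F Q x) ^ n * ma e = 0 := by rw [← ma_iterate, hn, ma_zero]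
  rw [ma_iterate, ma_zero, ← hef, ma_mul, ← mul_assoc, h1, zero_mul]

end stmts

end Pool.Agent.AWR.H39
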